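import Pool.Agent.Work.MP_db9399_co.Konig
import Pool.Agent.Work.MP_db9399_co.Galvin

/-!
# The class rule with slack (helper46, B15 (iv))

A bipartite multigraph: a finite set `S` of edges with end maps `x`, `y`.  Palette `K` with `r`
colours.  `XP`, `YP`: the vertices whose own colour is prescribed in `K`; the others use own
colours outside `K`.

* `cr_galvin`: if there are disjoint matchings `N1`, `Nr`, `N1` avoiding `XP`, `Nr` avoiding `YP`,
  such that the rest has maximum degree `≤ r - 2`, then the edges can be coloured with `K`,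
  respecting arbitrary prescribed own colours.
* `cr_local`: such matchings exist by purely local degree conditions.
-/

set_option autoImplicit false
set_option linter.unusedSectionVars false

namespace Pool.Agent.Work.MP_db9399_cr

open Finset MP_db9399_co

variable {E X Y C : Type*} [DecidableEq E] [DecidableEq X] [DecidableEq Y] [DecidableEq C]

/-- number of edges of `S` at `v` with respect to the end map `z` -/
def dg (z : E → X) (S : Finset E) (v : X) : ℕ := (S.filter (fun e => z e = v)).card

/-- `M` is a matching -/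
def Mch (x : E → X) (y : E → Y) (M : Finset E) : Prop :=
  (∀ e ∈ M, ∀ f ∈ M, x e = x f → e = f) ∧ (∀ e ∈ M, ∀ f ∈ M, y e = y f → e = f)

theorem Mch.swap {x : E → X} {y : E → Y} {M : Finset E} (h : Mch x y M) : Mch y x M :=
  ⟨h.2, h.1⟩

/-- Mendelsohn-Dulmage -/
theorem md (x : E → X) (y : E → Y) (M1 M2 : Finset E) (h1 : Mch x y M1) (h2 : Mch x y M2) :
    ∃ M ⊆ M1 ∪ M2, Mch x y M ∧ (∀ e ∈ M1, ∃ f ∈ M, x f = x e) ∧
      (∀ e ∈ M2, ∃ f ∈ M, y f = y e) := by
  obtain ⟨M, hM, hMx, hMy, hst⟩ := exists_stable x y (fun e => if e ∈ M2 then 0 else 1)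
    (fun e => if e ∈ M1 then 0 else 1) (M1 ∪ M2)
    (by
      intro e he f hf hxx haa
      simp only [mem_union] at he hf
      by_cases g1 : e ∈ M2 <;> by_cases g2 : f ∈ M2 <;> simp only [g1, g2, if_true, if_false] at haa
      · exact h2.1 e g1 f g2 hxx
      · omega
      · omega
      · exact h1.1 e (he.resolve_right g1) f (hf.resolve_right g2) hxx)
    (by
      intro e he f hf hxx haa
      simp only [mem_union] at he hf
      by_cases g1 : e ∈ M1 <;> by_cases g2 : f ∈ M1 <;> simp only [g1, g2, if_true, if_false] at haa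
      · exact h1.2 e g1 f g2 hxx
      · omega
      · omega
      · exact h2.2 e (he.resolve_left g1) f (hf.resolve_left g2) hxx)
  refine ⟨M, hM, ⟨hMx, hMy⟩, ?_, ?_⟩
  · intro e he
    by_cases heM : e ∈ M
    · exact ⟨e, heM, rfl⟩
    · obtain ⟨f, hf, hd⟩ := hst e (mem_union_left _ he) heM
      rcases hd with hd | hd
      · exact ⟨f, hf, hd.1⟩
      · simp [he] at hd
  · intro e he
    by_cases heM : e ∈ M
    · exact ⟨e, heM, rfl⟩
    · obtain ⟨f, hf, hd⟩ := hst e (mem_union_right _ he) heM
      rcases hd with hd | hd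
      · simp [he] at hd
      · exact ⟨f, hf, hd.1⟩

/-- Hall with degree conditions: all vertices of `A` have at least `p` edges, every vertex on the
other side has at most `p` edges from `A`. -/
theorem sat (x : E → X) (y : E → Y) (S : Finset E) (A : X → Prop) [DecidablePred A] (p : ℕ)
    (hp : 1 ≤ p)
    (hA : ∀ v, A v → p ≤ dg x S v)
    (hy : ∀ w, (S.filter (fun e => y e = w ∧ A (x e))).card ≤ p) :
    ∃ M ⊆ S, Mch x y M ∧ ∀ v, A v → ∃ e ∈ M, x e = v := by
  classical
  obtain ⟨d, rfl⟩ : ∃ d, p = d + 1 := ⟨p - 1, by omega⟩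
  obtain ⟨M, hMS, hMx, hMy, hc⟩ := hall_side x y d (S.filter (fun e => A (x e))) (by
    intro w
    refine le_trans (card_le_card ?_) (hy w)
    intro e he
    simp only [mem_filter] at he ⊢
    exact ⟨he.1.1, he.2, he.1.2⟩)
  refine ⟨M, hMS.trans (filter_subset _ _), ⟨hMx, hMy⟩, fun v hv => ?_⟩
  refine hc v (le_trans (hA v hv) (card_le_card ?_))
  intro e he
  simp only [mem_filter] at he ⊢
  exact ⟨⟨he.1, by rw [he.2]; exact hv⟩, he.2⟩

/-- a matching which saturates `A` and `B` -/
theorem sat2 (x : E → X) (y : E → Y) (S : Finset E) (A : X → Prop) (B : Y → Prop)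
    [DecidablePred A] [DecidablePred B] (p q : ℕ)
    (hp : 1 ≤ p) (hq : 1 ≤ q)
    (hA : ∀ v, A v → p ≤ dg x S v)
    (hA' : ∀ w, (S.filter (fun e => y e = w ∧ A (x e))).card ≤ p)
    (hB : ∀ w, B w → q ≤ dg y S w)
    (hB' : ∀ v, (S.filter (fun e => x e = v ∧ B (y e))).card ≤ q) :
    ∃ M ⊆ S, Mch x y M ∧ (∀ v, A v → ∃ e ∈ M, x e = v) ∧ (∀ w, B w → ∃ e ∈ M, y e = w) := by
  obtain ⟨M1, h1S, h1, c1⟩ := sat x y S A p hp hA hA'
  obtain ⟨M2, h2S, h2, c2⟩ := sat y x S B q hq hB hB'
  obtain ⟨M, hM, hMm, hx, hy⟩ := md x y M1 M2 h1 h2.swap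
  refine ⟨M, hM.trans (union_subset h1S h2S), hMm, fun v hv => ?_, fun w hw => ?_⟩
  · obtain ⟨e, he, hev⟩ := c1 v hv
    obtain ⟨f, hf, hfe⟩ := hx e he
    exact ⟨f, hf, hfe.trans hev⟩
  · obtain ⟨e, he, hev⟩ := c2 w hw
    obtain ⟨f, hf, hfe⟩ := hy e he
    exact ⟨f, hf, hfe.trans hev⟩

/-- at one vertex, at most `n` edges have a class in a set of `n` classes -/
theorem card_cls (z : E → X) (S : Finset E) (f : E → ℕ)
    (hf : ∀ e ∈ S, ∀ e' ∈ S, z e = z e' → f e = f e' → e = e') (v : X) (T : Finset ℕ)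
    (P : E → Prop) [DecidablePred P] (hT : ∀ e ∈ S, z e = v → P e → f e ∈ T) :
    (S.filter (fun e => z e = v ∧ P e)).card ≤ T.card := by
  refine card_le_card_of_injOn f ?_ ?_
  · intro e he
    simp only [coe_filter, Set.mem_ofPred_eq] at he
    exact hT e he.1 he.2.1 he.2.2
  · intro e he e' he' hee
    simp only [coe_filter, Set.mem_ofPred_eq] at he he'
    exact hf e he.1 e' he'.1 (he.2.1.trans he'.2.1.symm) hee

/-- the class rule -/
theorem cr_galvin [Nonempty C] (x : E → X) (y : E → Y) (S : Finset E) (r : ℕ) (hr : 2 ≤ r)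
    (XP : X → Prop) (YP : Y → Prop) (N1 Nr : Finset E) (hN1 : N1 ⊆ S) (hNr : Nr ⊆ S)
    (hdis : Disjoint N1 Nr) (m1 : Mch x y N1) (mr : Mch x y Nr)
    (a1 : ∀ e ∈ N1, ¬ XP (x e)) (ar : ∀ e ∈ Nr, ¬ YP (y e))
    (dx : ∀ v, dg x (S \ (N1 ∪ Nr)) v ≤ r - 2) (dy : ∀ w, dg y (S \ (N1 ∪ Nr)) w ≤ r - 2)
    (K : Finset C) (hK : r ≤ K.card) (cX : X → C) (cY : Y → C) :
    ∃ col : E → C, (∀ e ∈ S, col e ∈ K ∧ (XP (x e) → col e ≠ cX (x e)) ∧
        (YP (y e) → col e ≠ cY (y e))) ∧
      ∀ e ∈ S, ∀ f ∈ S, e ≠ f → (x e = x f ∨ y e = y f) → col e ≠ col f := by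
  classical
  obtain ⟨κ, hκ1, hκ2⟩ := konig x y (r - 2) (S \ (N1 ∪ Nr)) dx dy
  set cl : E → ℕ := fun e => if e ∈ N1 then 0 else if e ∈ Nr then r - 1 else κ e + 1 with hcl
  have cl1 : ∀ e ∈ N1, cl e = 0 := fun e he => by simp only [hcl, if_pos he]
  have clr : ∀ e ∈ Nr, cl e = r - 1 := fun e he => by
    have : e ∉ N1 := fun h => (disjoint_left.1 hdis) h he
    simp only [hcl, if_neg this, if_pos he]
  have cl0 : ∀ e ∈ S, e ∉ N1 → e ∉ Nr → cl e = κ e + 1 ∧ κ e < r - 2 := fun e he h1 h2 => by
    refine ⟨by simp only [hcl, if_neg h1, if_neg h2], hκ1 e ?_⟩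
    simp only [mem_sdiff, mem_union, not_or]
    exact ⟨he, h1, h2⟩
  have clt : ∀ e ∈ S, cl e < r := by
    intro e he
    by_cases h1 : e ∈ N1
    · rw [cl1 e h1]; omega
    · by_cases h2 : e ∈ Nr
      · rw [clr e h2]; omega
      · obtain ⟨h3, h4⟩ := cl0 e he h1 h2
        omega
  have key : ∀ e ∈ S, ∀ f ∈ S, (x e = x f ∨ y e = y f) → cl e = cl f → e = f := by
    intro e he f hf hxy hc
    by_contra hne
    by_cases e1 : e ∈ N1
    · have hce := cl1 e e1
      by_cases f1 : f ∈ N1
      · rcases hxy with h | h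
        · exact hne (m1.1 e e1 f f1 h)
        · exact hne (m1.2 e e1 f f1 h)
      · by_cases f2 : f ∈ Nr
        · rw [hce, clr f f2] at hc; omega
        · rw [hce, (cl0 f hf f1 f2).1] at hc; omega
    · by_cases e2 : e ∈ Nr
      · have hce := clr e e2
        by_cases f1 : f ∈ N1
        · rw [hce, cl1 f f1] at hc; omega
        · by_cases f2 : f ∈ Nr
          · rcases hxy with h | h
            · exact hne (mr.1 e e2 f f2 h)
            · exact hne (mr.2 e e2 f f2 h)
          · have := cl0 f hf f1 f2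
            rw [hce, this.1] at hc; omega
      · obtain ⟨g1, g2⟩ := cl0 e he e1 e2
        by_cases f1 : f ∈ N1
        · rw [g1, cl1 f f1] at hc; omega
        · by_cases f2 : f ∈ Nr
          · rw [g1, clr f f2] at hc; omega
          · obtain ⟨g3, g4⟩ := cl0 f hf f1 f2
            have : κ e = κ f := by omega
            refine hκ2 e ?_ f ?_ hne hxy this
            · simp only [mem_sdiff, mem_union, not_or]; exact ⟨he, e1, e2⟩
            · simp only [mem_sdiff, mem_union, not_or]; exact ⟨hf, f1, f2⟩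
  have kx : ∀ e ∈ S, ∀ f ∈ S, x e = x f → cl e = cl f → e = f :=
    fun e he f hf h hc => key e he f hf (Or.inl h) hc
  have ky : ∀ e ∈ S, ∀ f ∈ S, y e = y f → cl e = cl f → e = f :=
    fun e he f hf h hc => key e he f hf (Or.inr h) hc
  have xp0 : ∀ e ∈ S, XP (x e) → cl e ≠ 0 := by
    intro e he hxp h0
    by_cases e1 : e ∈ N1
    · exact a1 e e1 hxp
    · by_cases e2 : e ∈ Nr
      · rw [clr e e2] at h0; omega
      · rw [(cl0 e he e1 e2).1] at h0; omega
  have yp0 : ∀ e ∈ S, YP (y e) → cl e ≠ r - 1 := by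
    intro e he hyp h0
    by_cases e2 : e ∈ Nr
    · exact ar e e2 hyp
    · by_cases e1 : e ∈ N1
      · rw [cl1 e e1] at h0; omega
      · have := cl0 e he e1 e2
        omega
  set L : E → Finset C := fun e => (if XP (x e) then K.erase (cX (x e)) else K) \
    (if YP (y e) then {cY (y e)} else ∅) with hL
  obtain ⟨col, hcol1, hcol2⟩ := galvin x y cl (fun e => r - cl e) S kx
    (fun e he f hf h hc => ky e he f hf h (by
      have := clt e he
      have := clt f hf
      omega)) L (by
      intro e he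
      have he_lt := clt e he
      have h1 : (S.filter (fun f => x f = x e ∧ cl f < cl e)).card +
          (if XP (x e) then 1 else 0) ≤ cl e := by
        by_cases hxp : XP (x e)
        · rw [if_pos hxp]
          have h2 := card_cls x S cl kx (x e) (Finset.Ico 1 (cl e)) (fun f => cl f < cl e) (by
            intro f hf hfe hlt
            have := xp0 f hf (by rw [hfe]; exact hxp)
            rw [mem_Ico]
            omega)
          rw [Nat.card_Ico] at h2
          have := xp0 e he hxp
          omega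
        · rw [if_neg hxp]
          have h2 := card_cls x S cl kx (x e) (Finset.range (cl e)) (fun f => cl f < cl e) (by
            intro f hf hfe hlt
            rw [mem_range]
            exact hlt)
          rw [card_range] at h2
          omega
      have h3 : (S.filter (fun f => y f = y e ∧ r - cl f < r - cl e)).card +
          (if YP (y e) then 1 else 0) ≤ r - 1 - cl e := by
        by_cases hyp : YP (y e)
        · rw [if_pos hyp]
          have h2 := card_cls y S cl ky (y e) (Finset.Ico (cl e + 1) (r - 1))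
            (fun f => r - cl f < r - cl e) (by
            intro f hf hfe hlt
            have := yp0 f hf (by rw [hfe]; exact hyp)
            have := clt f hf
            rw [mem_Ico]
            omega)
          rw [Nat.card_Ico] at h2
          have := yp0 e he hyp
          omega
        · rw [if_neg hyp]
          have h2 := card_cls y S cl ky (y e) (Finset.Ico (cl e + 1) r)
            (fun f => r - cl f < r - cl e) (by
            intro f hf hfe hlt
            have := clt f hf
            rw [mem_Ico]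
            omega)
          rw [Nat.card_Ico] at h2
          omega
      have h4 : K.card ≤ (L e).card + (if XP (x e) then 1 else 0) + (if YP (y e) then 1 else 0) := by
        have h5 : (if XP (x e) then K.erase (cX (x e)) else K).card + (if XP (x e) then 1 else 0)
            ≥ K.card := by
          split_ifs
          · have := pred_card_le_card_erase (s := K) (a := cX (x e))
            omega
          · simp
        have h6 : (if XP (x e) then K.erase (cX (x e)) else K).card ≤ (L e).card +
            (if YP (y e) then 1 else 0) := by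
          have := le_card_sdiff (if YP (y e) then {cY (y e)} else ∅)
            (if XP (x e) then K.erase (cX (x e)) else K)
          have h7 : (if YP (y e) then ({cY (y e)} : Finset C) else ∅).card =
              (if YP (y e) then 1 else 0) := by
            split_ifs <;> simp
          rw [h7] at this
          simp only [hL]
          omega
        omega
      omega)
  refine ⟨col, fun e he => ?_, hcol2⟩
  have hc := hcol1 e he
  simp only [hL, mem_sdiff] at hc
  refine ⟨?_, fun hxp h => ?_, fun hyp h => ?_⟩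
  · have h1 := hc.1
    split_ifs at h1
    · exact mem_of_mem_erase h1
    · exact h1
  · have h1 := hc.1
    rw [if_pos hxp] at h1
    exact (mem_erase.1 h1).1 h
  · have h1 := hc.2
    rw [if_pos hyp] at h1
    exact h1 (mem_singleton.2 h)

theorem dg_mono (z : E → X) {S T : Finset E} (h : S ⊆ T) (v : X) : dg z S v ≤ dg z T v :=
  card_le_card (filter_subset_filter _ h)

/-- a matching has at most one edge at every vertex -/
theorem dg_match (z : E → X) (N : Finset E) (hN : ∀ e ∈ N, ∀ f ∈ N, z e = z f → e = f) (v : X) :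
    dg z N v ≤ 1 := by
  refine card_le_one.2 fun e he f hf => ?_
  rw [mem_filter] at he hf
  exact hN e he.1 f hf.1 (he.2.trans hf.2.symm)

theorem dg_sdiff_lt (z : E → X) {S N : Finset E} (hNS : N ⊆ S) {v : X}
    (h : ∃ e ∈ N, z e = v) : dg z (S \ N) v + 1 ≤ dg z S v := by
  obtain ⟨e, he, hev⟩ := h
  refine card_lt_card ⟨filter_subset_filter _ sdiff_subset, fun h' => ?_⟩
  have := h' (mem_filter.2 ⟨hNS he, hev⟩)
  exact (mem_sdiff.1 (mem_filter.1 this).1).2 he

/-- the class rule under local degree conditions.  A vertex with `h` missing outer colours has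
degree `r - 2 + h`. -/
theorem cr_local [Nonempty C] (x : E → X) (y : E → Y) (S : Finset E) (r : ℕ) (hr : 2 ≤ r)
    (XP : X → Prop) (YP : Y → Prop) [DecidablePred XP] [DecidablePred YP]
    (dx : ∀ v, dg x S v ≤ r) (dy : ∀ w, dg y S w ≤ r)
    (hXP : ∀ v, XP v → dg x S v ≤ r - 1) (hYP : ∀ w, YP w → dg y S w ≤ r - 1)
    (p p' : ℕ) (hp : 1 ≤ p) (hp' : 1 ≤ p')
    (hA : ∀ v, ((XP v ∧ dg x S v = r - 1) ∨ dg x S v = r) →
      p ≤ (S.filter (fun e => x e = v ∧ ¬ YP (y e))).card)
    (hA' : ∀ w, ¬ YP w → (S.filter (fun e => y e = w ∧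
      ((XP (x e) ∧ dg x S (x e) = r - 1) ∨ dg x S (x e) = r))).card ≤ p)
    (hB : ∀ v, (S.filter (fun e => x e = v ∧ ¬ YP (y e) ∧ r - 1 ≤ dg y S (y e))).card ≤ r - 1)
    (hC : ∀ w, ((YP w ∧ dg y S w = r - 1) ∨ dg y S w = r) →
      p' + 1 ≤ (S.filter (fun e => y e = w ∧ ¬ XP (x e))).card)
    (hC' : ∀ v, ¬ XP v → (S.filter (fun e => x e = v ∧
      ((YP (y e) ∧ dg y S (y e) = r - 1) ∨ dg y S (y e) = r))).card ≤ p')
    (K : Finset C) (hK : r ≤ K.card) (cX : X → C) (cY : Y → C) :
    ∃ col : E → C, (∀ e ∈ S, col e ∈ K ∧ (XP (x e) → col e ≠ cX (x e)) ∧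
        (YP (y e) → col e ≠ cY (y e))) ∧
      ∀ e ∈ S, ∀ f ∈ S, e ≠ f → (x e = x f ∨ y e = y f) → col e ≠ col f := by
  classical
  -- the last class
  obtain ⟨Nr, hNr, mr, cA, cB⟩ := sat2 x y (S.filter (fun e => ¬ YP (y e)))
    (fun v => (XP v ∧ dg x S v = r - 1) ∨ dg x S v = r)
    (fun w => ¬ YP w ∧ r - 1 ≤ dg y S w) p (r - 1) hp (by omega)
    (by
      intro v hv
      refine le_trans (hA v hv) (card_le_card ?_)
      intro e he
      simp only [mem_filter] at he ⊢
      exact ⟨⟨he.1, he.2.2⟩, he.2.1⟩)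
    (by
      intro w
      by_cases hw : YP w
      · refine le_trans (le_of_eq ?_) (Nat.zero_le _)
        rw [card_eq_zero, filter_eq_empty_iff]
        intro e he h
        rw [mem_filter] at he
        exact he.2 (h.1 ▸ hw)
      · refine le_trans (card_le_card ?_) (hA' w hw)
        intro e he
        simp only [mem_filter] at he ⊢
        exact ⟨he.1.1, he.2⟩)
    (by
      intro w hw
      refine le_trans hw.2 (card_le_card ?_)
      intro e he
      simp only [mem_filter] at he ⊢
      exact ⟨⟨he.1, by rw [he.2]; exact hw.1⟩, he.2⟩)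
    (by
      intro v
      refine le_trans (card_le_card ?_) (hB v)
      intro e he
      simp only [mem_filter] at he ⊢
      exact ⟨he.1.1, he.2⟩)
  have hNrS : Nr ⊆ S := hNr.trans (filter_subset _ _)
  have ar : ∀ e ∈ Nr, ¬ YP (y e) := fun e he => (mem_filter.1 (hNr he)).2
  have dx' : ∀ v, dg x (S \ Nr) v ≤ r - 1 := by
    intro v
    have h1 := dg_mono x (sdiff_subset : S \ Nr ⊆ S) v
    have h2 := dx v
    by_cases h : dg x S v = r
    · have := dg_sdiff_lt x hNrS (cA v (Or.inr h))
      omega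
    · omega
  have dy' : ∀ w, dg y (S \ Nr) w ≤ r - 1 := by
    intro w
    have h1 := dg_mono y (sdiff_subset : S \ Nr ⊆ S) w
    have h2 := dy w
    by_cases h : dg y S w = r
    · have hyp : ¬ YP w := fun hy => by
        have := hYP w hy
        omega
      have := dg_sdiff_lt y hNrS (cB w ⟨hyp, by omega⟩)
      omega
    · omega
  have notXP : ∀ v, r - 1 ≤ dg x (S \ Nr) v → ¬ XP v := by
    intro v hv hxp
    have h1 := hXP v hxp
    have h2 := dg_mono x (sdiff_subset : S \ Nr ⊆ S) v
    have := dg_sdiff_lt x hNrS (cA v (Or.inl ⟨hxp, by omega⟩))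
    omega
  have isSY : ∀ w, r - 1 ≤ dg y (S \ Nr) w → (YP w ∧ dg y S w = r - 1) ∨ dg y S w = r := by
    intro w hw
    have h2 := dg_mono y (sdiff_subset : S \ Nr ⊆ S) w
    have h3 := dy w
    by_cases h : dg y S w = r
    · exact Or.inr h
    · left
      refine ⟨?_, by omega⟩
      by_contra hyp
      have := dg_sdiff_lt y hNrS (cB w ⟨hyp, by omega⟩)
      omega
  -- the first class
  obtain ⟨N1, hN1, m1, cA1, cB1⟩ := sat2 x y ((S \ Nr).filter (fun e => ¬ XP (x e)))
    (fun v => r - 1 ≤ dg x (S \ Nr) v) (fun w => r - 1 ≤ dg y (S \ Nr) w) (r - 1) p'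
    (by omega) hp'
    (by
      intro v hv
      refine le_trans hv (card_le_card ?_)
      intro e he
      simp only [mem_filter] at he ⊢
      exact ⟨⟨he.1, by rw [he.2]; exact notXP v hv⟩, he.2⟩)
    (by
      intro w
      refine le_trans (card_le_card ?_) (dy' w)
      intro e he
      simp only [mem_filter] at he ⊢
      exact ⟨he.1.1, he.2.1⟩)
    (by
      intro w hw
      have h1 := hC w (isSY w hw)
      have h2 := dg_match y Nr mr.2 w
      have h3 : (S.filter (fun e => y e = w ∧ ¬ XP (x e))).card ≤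
          dg y ((S \ Nr).filter (fun e => ¬ XP (x e))) w + dg y Nr w := by
        unfold dg
        rw [← card_union_add_card_inter]
        refine le_trans (card_le_card ?_) (Nat.le_add_right _ _)
        intro e he
        simp only [mem_filter, mem_union, mem_sdiff] at he ⊢
        by_cases hn : e ∈ Nr
        · exact Or.inr ⟨hn, he.2.1⟩
        · exact Or.inl ⟨⟨⟨he.1, hn⟩, he.2.2⟩, he.2.1⟩
      omega)
    (by
      intro v
      by_cases hv : XP v
      · refine le_trans (le_of_eq ?_) (Nat.zero_le _)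
        rw [card_eq_zero, filter_eq_empty_iff]
        intro e he h
        rw [mem_filter] at he
        exact he.2 (h.1 ▸ hv)
      · refine le_trans (card_le_card ?_) (hC' v hv)
        intro e he
        simp only [mem_filter, mem_sdiff] at he ⊢
        exact ⟨he.1.1.1, he.2.1, isSY _ he.2.2⟩)
  have hN1' : N1 ⊆ S \ Nr := hN1.trans (filter_subset _ _)
  have a1 : ∀ e ∈ N1, ¬ XP (x e) := fun e he => (mem_filter.1 (hN1 he)).2
  have hdis : Disjoint N1 Nr := by
    rw [disjoint_left]
    intro e he
    exact (mem_sdiff.1 (hN1' he)).2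
  have hsd : S \ (N1 ∪ Nr) = (S \ Nr) \ N1 := by
    ext e
    simp only [mem_sdiff, mem_union, not_or]
    tauto
  refine cr_galvin x y S r hr XP YP N1 Nr (hN1'.trans sdiff_subset) hNrS hdis m1 mr a1 ar ?_ ?_
    K hK cX cY
  · intro v
    rw [hsd]
    have h1 := dg_mono x (sdiff_subset : (S \ Nr) \ N1 ⊆ S \ Nr) v
    have h2 := dx' v
    by_cases h : r - 1 ≤ dg x (S \ Nr) v
    · have := dg_sdiff_lt x hN1' (cA1 v h)
      omega
    · omega
  · intro w
    rw [hsd]
    have h1 := dg_mono y (sdiff_subset : (S \ Nr) \ N1 ⊆ S \ Nr) w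
    have h2 := dy' w
    by_cases h : r - 1 ≤ dg y (S \ Nr) w
    · have := dg_sdiff_lt y hN1' (cB1 w h)
      omega
    · omega

end Pool.Agent.Work.MP_db9399_cr
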